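import Pool.Agent.Q55.MertensL1

/-!
# One-sided first moments of the Mertens function

Let `M(u) = ∑_{n ≤ u} μ(n)`, `0 < δ ≤ 1`, `s = 1` or `s = -1`, and let
`A(x) = ∫_{x^{1-δ}}^x max(s M(u), 0) u^{-3/2} du` (first moment of the positive or of the negative part of
`M(u)/√u`, with respect to `du/u`, over the window `[x^{1-δ}, x]`).

* Unconditionally there is `c > 0` with `A(x) ≥ c log x` for all large `x`, for both signs.
* If, for one sign only, for every `ε > 0` there are arbitrarily large `x` with `A(x) ≤ ε (log x)²`, then the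
  Riemann Hypothesis holds and all nontrivial zeros of `ζ` are simple.
-/

set_option autoImplicit false

open Filter Topology MeasureTheory

namespace Pool.Agent.Results.MP_323ce2_nt.OneSidedMeans

/-- `∫_{x^{1-δ}}^x max(s M(u), 0) u^{-3/2} du`, where `M(u) = ∑_{1 ≤ n ≤ u} μ(n)`. -/
noncomputable def oneMean (δ s x : ℝ) : ℝ :=
  ∫ u in (x ^ (1 - δ))..x,
    max (s * ∑ n ∈ Finset.Icc 1 ⌊u⌋₊, ((ArithmeticFunction.moebius n : ℤ) : ℝ)) 0 / u ^ (3 / 2 : ℝ)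

theorem result (δ : ℝ) (hδ : 0 < δ) (hδ1 : δ ≤ 1) :
    (∃ c : ℝ, 0 < c ∧ ∀ᶠ x : ℝ in atTop,
      c * Real.log x ≤ oneMean δ 1 x ∧ c * Real.log x ≤ oneMean δ (-1) x) ∧
    (∀ s : ℝ, s = 1 ∨ s = -1 →
      (∀ ε : ℝ, 0 < ε → ∃ᶠ x : ℝ in atTop, oneMean δ s x ≤ ε * Real.log x ^ 2) →
      ∀ ρ : ℂ, riemannZeta ρ = 0 → 0 < ρ.re → ρ.re < 1 → ρ.re = 1 / 2 ∧ deriv riemannZeta ρ ≠ 0) := by
  refine ⟨?_, fun s hs h ρ hz h0 h1 => Q55.MertensL1.finalB hδ s hs h ρ hz h0 h1⟩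
  obtain ⟨c, hc, h⟩ := Q55.MertensL1.finalA hδ
  exact ⟨c, hc, h.mono fun x hx => ⟨hx 1 (Or.inl rfl), hx (-1) (Or.inr rfl)⟩⟩

end Pool.Agent.Results.MP_323ce2_nt.OneSidedMeans
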