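import Pool.Agent.Q55.MeanM

/-!
# The mean square of `m(n) = ∑_{k ≤ n} μ(k)/k`

Let `m(n) = ∑_{k ≤ n} μ(k)/k`.  Unconditionally

`lim_{N → ∞} (1 / log N) ∑_{1 ≤ n < N} m(n)² = ∑_ρ 1 / |ρ ζ'(ρ)|²`,

where the right-hand side is read as `+∞` when the Riemann Hypothesis fails, or some nontrivial zero is multiple,
or the series diverges; and the weak Mertens hypothesis is equivalent to `∑_{1 ≤ n < N} m(n)² ≪ log N`.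
The link with `I(x) = ∫_1^x (M(u)/u)² du` is the identity
`∑_{1 ≤ n < N} m(n)² = I(N) + N (∫_1^N M(u)/u² du)²`.
-/

set_option autoImplicit false

open Filter Topology

namespace Pool.Agent.Results.MP_323ce2_nt.ReciprocalSums

/-- `M(u) = ∑_{1 ≤ n ≤ u} μ(n)` -/
noncomputable def M (u : ℝ) : ℝ := ∑ n ∈ Finset.Icc 1 ⌊u⌋₊, ((ArithmeticFunction.moebius n : ℤ) : ℝ)

/-- `m(n) = ∑_{1 ≤ k ≤ n} μ(k)/k` -/
noncomputable def m (n : ℕ) : ℝ := ∑ k ∈ Finset.Icc 1 n, ((ArithmeticFunction.moebius k : ℤ) : ℝ) / k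

/-- the nontrivial zeros of the Riemann zeta function -/
def NT : Set ℂ := {s : ℂ | riemannZeta s = 0 ∧ 0 < s.re ∧ s.re < 1}

/-- the Riemann Hypothesis holds, all nontrivial zeros are simple and `∑ 1 / |ρ ζ'(ρ)|²` converges -/
def ZerosCondition : Prop := (∀ ρ ∈ NT, ρ.re = 1 / 2 ∧ deriv riemannZeta ρ ≠ 0) ∧
  Summable (fun ρ : NT => 1 / ‖(ρ : ℂ) * deriv riemannZeta ρ‖ ^ 2)

theorem result :
    ((∃ C : ℝ, ∀ x : ℝ, 2 ≤ x → ∫ u in (1 : ℝ)..x, (M u / u) ^ 2 ≤ C * Real.log x) ↔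
      ∃ C : ℝ, ∀ N : ℕ, 2 ≤ N → ∑ n ∈ Finset.Ico 1 N, m n ^ 2 ≤ C * Real.log N) ∧
    (ZerosCondition → Tendsto (fun N : ℕ => (∑ n ∈ Finset.Ico 1 N, m n ^ 2) / Real.log N) atTop
      (𝓝 (∑' ρ : NT, 1 / ‖(ρ : ℂ) * deriv riemannZeta ρ‖ ^ 2))) ∧
    (¬ ZerosCondition → Tendsto (fun N : ℕ => (∑ n ∈ Finset.Ico 1 N, m n ^ 2) / Real.log N) atTop atTop) ∧
    (∀ N : ℕ, 1 ≤ N → ∑ n ∈ Finset.Ico 1 N, m n ^ 2 =
      (∫ u in (1 : ℝ)..N, (M u / u) ^ 2) + N * (∫ u in (1 : ℝ)..N, M u / u ^ 2) ^ 2) := by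
  refine ⟨Q55.MeanM.Q_iff, fun h => Q55.MeanM.Q_lim h, fun h => Q55.MeanM.Q_top h, fun N hN => ?_⟩
  have h1 : Q55.MeanM.T N = ∫ u in (1 : ℝ)..N, M u / u ^ 2 := (Q55.MeanM.int_floor Q55.MeanM.M hN).2.symm
  rw [← h1]
  exact Q55.MeanM.Q_eq hN

end Pool.Agent.Results.MP_323ce2_nt.ReciprocalSums
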