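import Pool.Agent.Q212.WS.G
import Pool.Agent.Results.MP_323ce2_nt.ZeroSumCriterion

/-!
# The weak Mertens hypothesis on windows `[x, x (log x)^{1+η}]`

`M(u) = ∑_{n ≤ u} μ(n)`, `msq a b = ∫_a^b (M(u)/u)² du`, and `S = ∑_ρ 1/|ρ ζ'(ρ)|²` (over the nontrivial zeros).
Fix `η > 0`.

1. The weak Mertens hypothesis `msq 1 x ≪ log x` is equivalent to: for some `B` there are arbitrarily large `x` with
   `msq x (x (log x)^{1+η}) ≤ B log log x`.
2. If the weak Mertens hypothesis fails, then for every `B`, all large `x` and ALL `z ≥ x (log x)^{1+η}`,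
   `msq x z ≥ B log (z/x)`.
3. If it holds, then for every `c < η/(1+η) S`, all large `x` and all `z ≥ x (log x)^{1+η}`, `msq x z ≥ c log (z/x)`, and for
   every `c > S` there are arbitrarily large `x` with `msq x (x (log x)^{1+η}) ≤ c log ((log x)^{1+η})`.
-/

set_option autoImplicit false

open Filter Set Complex Topology

namespace Pool.Agent.Results.MP_323ce2_nt.ShortSparseWindows

/-- `M(u) = ∑_{n ≤ u} μ(n)`. -/
noncomputable def M (u : ℝ) : ℝ := ∑ n ∈ Finset.Icc 1 ⌊u⌋₊, ((ArithmeticFunction.moebius n : ℤ) : ℝ)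

/-- `∫_a^b (M(u)/u)² du`. -/
noncomputable def msq (a b : ℝ) : ℝ := ∫ u in a..b, (M u / u) ^ 2

/-- The weak Mertens hypothesis. -/
def WeakMertens : Prop := ∃ C : ℝ, ∀ x : ℝ, 2 ≤ x → msq 1 x ≤ C * Real.log x

/-- The nontrivial zeros of `ζ`. -/
def NT : Set ℂ := {s : ℂ | riemannZeta s = 0 ∧ 0 < s.re ∧ s.re < 1}

/-- `S = ∑_ρ 1/|ρ ζ'(ρ)|²`. -/
noncomputable def S : ℝ := ∑' ρ : NT, 1 / ‖(ρ : ℂ) * deriv riemannZeta ρ‖ ^ 2

/-- RH, simple zeros and convergence of the series for `S`. -/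
def ZC : Prop := (∀ ρ ∈ NT, ρ.re = 1 / 2 ∧ deriv riemannZeta ρ ≠ 0) ∧
  Summable (fun ρ : NT => 1 / ‖(ρ : ℂ) * deriv riemannZeta ρ‖ ^ 2)

theorem wm_iff : WeakMertens ↔ ZC := ZeroSumCriterion.result.1

theorem wm_lim (h : ZC) : Tendsto (fun x : ℝ => msq 1 x / Real.log x) atTop (𝓝 S) := by
  have h1 := (ZeroSumCriterion.result.2 1 one_pos le_rfl).1 h
  rw [one_mul] at h1
  refine h1.congr fun x => ?_
  rw [sub_self, Real.rpow_zero]
  rfl

/-- a finite set of zeros -/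
theorem finite_part (h1 : ∀ ρ ∈ NT, ρ.re = 1 / 2 ∧ deriv riemannZeta ρ ≠ 0) (u : Finset NT) {η c : ℝ} (hη : 0 < η)
    (hc : c < η / (1 + η) * ∑ ρ ∈ u, 1 / ‖(ρ : ℂ) * deriv riemannZeta ρ‖ ^ 2) :
    ∀ᶠ x : ℝ in atTop, ∀ z : ℝ, x * Real.log x ^ (1 + η) ≤ z → c * Real.log (z / x) ≤ msq x z := by
  classical
  have hρ : ∀ ρ : NT, (1 / 2 + ((ρ : ℂ).im : ℂ) * I) = (ρ : ℂ) := by
    intro ρ
    apply Complex.ext
    · simp [(h1 ρ ρ.2).1]
    · simp
  have hsum : ∑ l ∈ u.image (fun ρ : NT => (ρ : ℂ).im), ‖Q212.WS.cf l‖ ^ 2 =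
      ∑ ρ ∈ u, 1 / ‖(ρ : ℂ) * deriv riemannZeta ρ‖ ^ 2 := by
    rw [Finset.sum_image]
    · refine Finset.sum_congr rfl fun ρ _ => ?_
      unfold Q212.WS.cf
      rw [hρ ρ, if_pos ρ.2.1, norm_div, norm_one, div_pow, one_pow]
    · intro a _ b _ hab
      apply Subtype.ext
      have hab' : (a : ℂ).im = (b : ℂ).im := hab
      rw [← hρ a, ← hρ b, hab']
  refine Q212.WS.lower (u.image fun ρ : NT => (ρ : ℂ).im) (fun l hl _ => ?_) hη (by rw [hsum]; exact hc)
  obtain ⟨ρ, -, rfl⟩ := Finset.mem_image.1 hl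
  rw [hρ ρ]
  exact (h1 ρ ρ.2).2

/-- the hypothesis fails -/
theorem fails {η : ℝ} (hη : 0 < η) (h : ¬ ZC) (B : ℝ) :
    ∀ᶠ x : ℝ in atTop, ∀ z : ℝ, x * Real.log x ^ (1 + η) ≤ z → B * Real.log (z / x) ≤ msq x z := by
  by_cases h1 : ∀ ρ ∈ NT, ρ.re = 1 / 2 ∧ deriv riemannZeta ρ ≠ 0
  · -- the series diverges
    have h2 : ¬ Summable (fun ρ : NT => 1 / ‖(ρ : ℂ) * deriv riemannZeta ρ‖ ^ 2) := fun hs => h ⟨h1, hs⟩
    have h3 : ∃ u : Finset NT, (B + 1) / (η / (1 + η)) < ∑ ρ ∈ u, 1 / ‖(ρ : ℂ) * deriv riemannZeta ρ‖ ^ 2 := by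
      by_contra hcon
      push Not at hcon
      exact h2 (summable_of_sum_le (fun ρ => by positivity) hcon)
    obtain ⟨u, hu⟩ := h3
    refine finite_part h1 u hη ?_
    have hk : 0 < η / (1 + η) := by positivity
    rw [div_lt_iff₀ hk] at hu
    linarith
  · push Not at h1
    obtain ⟨ρ, hρ, h2⟩ := h1
    -- a bad zero with real part at least 1/2
    have h3 : ∃ ρ : ℂ, riemannZeta ρ = 0 ∧ 1 / 2 ≤ ρ.re ∧ ρ.re < 1 ∧ (1 / 2 < ρ.re ∨ deriv riemannZeta ρ = 0) := by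
      by_cases hre : ρ.re = 1 / 2
      · exact ⟨ρ, hρ.1, hre.ge, hρ.2.2, Or.inr (h2 hre)⟩
      · rcases lt_or_gt_of_ne hre with h4 | h4
        · exact ⟨1 - ρ, H313.TK.refl_zero ρ hρ.1 hρ.2.1 hρ.2.2, by simp; linarith, by simp; linarith [hρ.2.1],
            Or.inl (by simp; linarith)⟩
        · exact ⟨ρ, hρ.1, h4.le, hρ.2.2, Or.inl h4⟩
    obtain ⟨ρ', hz, h0, h1', hbad⟩ := h3
    filter_upwards [Q212.WS.lower_bad ρ' hz h0 h1' hbad hη (abs_nonneg B), eventually_ge_atTop (Real.exp 1)] with x hx hx1 z hzz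
    refine le_trans (mul_le_mul_of_nonneg_right (le_abs_self B) ?_) (hx z hzz)
    have hx0 : 0 < x := (Real.exp_pos 1).trans_le hx1
    have hl1 : 1 ≤ Real.log x := by rwa [Real.le_log_iff_exp_le hx0]
    have h5 : x ≤ z := by
      refine le_trans ?_ hzz
      exact le_mul_of_one_le_right hx0.le (Real.one_le_rpow hl1 (by linarith))
    refine Real.log_nonneg ?_
    rw [le_div_iff₀ hx0]
    linarith

/-- the hypothesis holds: lower bound -/
theorem holds_lower {η : ℝ} (hη : 0 < η) (h : ZC) {c : ℝ} (hc : c < η / (1 + η) * S) :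
    ∀ᶠ x : ℝ in atTop, ∀ z : ℝ, x * Real.log x ^ (1 + η) ≤ z → c * Real.log (z / x) ≤ msq x z := by
  have hk : 0 < η / (1 + η) := by positivity
  have h2 : c / (η / (1 + η)) < S := by
    rw [div_lt_iff₀ hk]
    linarith
  have h3 : ∃ u : Finset NT, c / (η / (1 + η)) < ∑ ρ ∈ u, 1 / ‖(ρ : ℂ) * deriv riemannZeta ρ‖ ^ 2 := by
    by_contra hcon
    push Not at hcon
    have h4 := Real.tsum_le_of_sum_le (fun ρ : NT => by positivity) hcon
    exact absurd h2 (not_lt.2 h4)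
  obtain ⟨u, hu⟩ := h3
  refine finite_part h.1 u hη ?_
  rw [div_lt_iff₀ hk] at hu
  linarith

/-- the hypothesis holds: sparse upper bound -/
theorem holds_upper {η : ℝ} (hη : 0 < η) (h : ZC) {c : ℝ} (hc : S < c) :
    ∃ᶠ x : ℝ in atTop, msq x (x * Real.log x ^ (1 + η)) ≤ c * Real.log (Real.log x ^ (1 + η)) := by
  by_contra hcon
  rw [Filter.not_frequently] at hcon
  have hcon' : ∀ᶠ x : ℝ in atTop, c * Real.log (Real.log x ^ (1 + η)) ≤ msq x (x * Real.log x ^ (1 + η)) :=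
    hcon.mono fun x hx => (not_le.1 hx).le
  obtain ⟨x1, hx1⟩ := eventually_atTop.1 hcon'
  set x0 : ℝ := max x1 (Real.exp (Real.exp 1)) with hx0
  let X : ℕ → ℝ := fun n => Nat.rec x0 (fun _ y => y * Real.log y ^ (1 + η)) n
  have hX0 : X 0 = x0 := rfl
  have hXs : ∀ n, X (n + 1) = X n * Real.log (X n) ^ (1 + η) := fun n => rfl
  have hxe : Real.exp (Real.exp 1) ≤ x0 := le_max_right _ _
  have hx0p : 0 < x0 := (Real.exp_pos _).trans_le hxe
  have key : ∀ n : ℕ, x0 ≤ X n ∧ Real.log x0 + n ≤ Real.log (X n) ∧ c * (Real.log (X n) - Real.log x0) ≤ msq x0 (X n) := by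
    intro n
    induction n with
    | zero =>
      rw [hX0]
      refine ⟨le_rfl, by simp, ?_⟩
      rw [sub_self, mul_zero]
      exact Q212.WS.ms_nonneg hx0p le_rfl
    | succ n ih =>
      obtain ⟨h1, h2, h3⟩ := ih
      have hXp : 0 < X n := hx0p.trans_le h1
      have hlX : Real.exp 1 ≤ Real.log (X n) := by
        rw [Real.le_log_iff_exp_le hXp]
        exact hxe.trans h1
      have hlX0 : 0 < Real.log (X n) := (Real.exp_pos 1).trans_le hlX
      have hllX : 1 ≤ Real.log (Real.log (X n)) := by rwa [Real.le_log_iff_exp_le hlX0]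
      have hone : 1 ≤ Real.log (X n) ^ (1 + η) :=
        Real.one_le_rpow (by linarith [Real.add_one_le_exp (1:ℝ)]) (by linarith)
      have hXX : X n ≤ X (n + 1) := by
        rw [hXs]
        exact le_mul_of_one_le_right hXp.le hone
      have hlog : Real.log (X (n + 1)) = Real.log (X n) + Real.log (Real.log (X n) ^ (1 + η)) := by
        rw [hXs, Real.log_mul hXp.ne' (by positivity)]
      have hlog1 : 1 ≤ Real.log (Real.log (X n) ^ (1 + η)) := by
        rw [Real.log_rpow hlX0]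
        nlinarith
      refine ⟨h1.trans hXX, ?_, ?_⟩
      · rw [hlog]
        push_cast
        linarith
      · have h4 := hx1 (X n) ((le_max_left _ _).trans h1)
        rw [← hXs] at h4
        have h5 : msq x0 (X (n + 1)) = msq x0 (X n) + msq (X n) (X (n + 1)) := Q212.WS.ms_add hx0p h1 hXX
        rw [h5, hlog]
        linarith
  have hlim : Tendsto (fun n => Real.log (X n)) atTop atTop :=
    tendsto_atTop_mono (fun n => (key n).2.1) (tendsto_atTop_add_const_left _ _ tendsto_natCast_atTop_atTop)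
  have hXlim : Tendsto X atTop atTop := by
    refine tendsto_atTop_mono (fun n => ?_) hlim
    exact (Real.log_le_sub_one_of_pos (hx0p.trans_le (key n).1)).trans (by linarith)
  have h5 := (wm_lim h).comp hXlim
  have h6 : Tendsto (fun n => c - c * Real.log x0 / Real.log (X n)) atTop (𝓝 (c - 0)) :=
    tendsto_const_nhds.sub (tendsto_const_nhds.div_atTop hlim)
  rw [sub_zero] at h6
  have h7 : c ≤ S := by
    refine le_of_tendsto_of_tendsto h6 h5 ?_
    filter_upwards [hlim.eventually_gt_atTop 0] with n hn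
    obtain ⟨k1, k2, k3⟩ := key n
    have hx01 : 1 ≤ x0 := by
      refine le_trans ?_ hxe
      exact Real.one_le_exp (Real.exp_pos 1).le
    have k4 : msq 1 (X n) = msq 1 x0 + msq x0 (X n) := Q212.WS.ms_add one_pos hx01 k1
    have k5 : 0 ≤ msq 1 x0 := Q212.WS.ms_nonneg one_pos hx01
    show c - c * Real.log x0 / Real.log (X n) ≤ msq 1 (X n) / Real.log (X n)
    rw [le_div_iff₀ hn, sub_mul, div_mul_cancel₀ _ hn.ne']
    linarith
  linarith

/-- **The weak Mertens hypothesis on windows `[x, x (log x)^{1+η}]`.** -/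
theorem result (η : ℝ) (hη : 0 < η) :
    (WeakMertens ↔ ∃ B : ℝ, ∃ᶠ x : ℝ in atTop, msq x (x * Real.log x ^ (1 + η)) ≤ B * Real.log (Real.log x)) ∧
    (¬ WeakMertens → ∀ B : ℝ, ∀ᶠ x : ℝ in atTop, ∀ z : ℝ, x * Real.log x ^ (1 + η) ≤ z →
      B * Real.log (z / x) ≤ msq x z) ∧
    (WeakMertens →
      (∀ c : ℝ, c < η / (1 + η) * S → ∀ᶠ x : ℝ in atTop, ∀ z : ℝ, x * Real.log x ^ (1 + η) ≤ z →
        c * Real.log (z / x) ≤ msq x z) ∧
      (∀ c : ℝ, S < c → ∃ᶠ x : ℝ in atTop,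
        msq x (x * Real.log x ^ (1 + η)) ≤ c * Real.log (Real.log x ^ (1 + η)))) := by
  refine ⟨⟨fun h => ?_, fun h => ?_⟩, fun h B => fails hη (fun hz => h (wm_iff.2 hz)) B,
    fun h => ⟨fun c hc => holds_lower hη (wm_iff.1 h) hc, fun c hc => holds_upper hη (wm_iff.1 h) hc⟩⟩
  · refine ⟨(S + 1) * (1 + η), ((holds_upper hη (wm_iff.1 h) (show S < S + 1 by linarith)).and_eventually
      (Real.tendsto_log_atTop.eventually_gt_atTop 0)).mono fun x hx => ?_⟩
    have h1 := hx.1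
    rw [Real.log_rpow hx.2] at h1
    rw [mul_assoc]
    exact h1
  · by_contra hcon
    obtain ⟨B, hB⟩ := h
    have h1 := fails hη (fun hz => hcon (wm_iff.2 hz)) (|B| + 1)
    have t2 : Tendsto (fun y : ℝ => Real.log (Real.log y)) atTop atTop :=
      Real.tendsto_log_atTop.comp Real.tendsto_log_atTop
    obtain ⟨x, hx1, hx2, hx3, hx4, hx5⟩ := (hB.and_eventually (h1.and ((t2.eventually_gt_atTop 0).and
      ((Real.tendsto_log_atTop.eventually_gt_atTop 0).and (eventually_gt_atTop 0))))).exists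
    have h2 := hx2 _ le_rfl
    rw [mul_div_cancel_left₀ _ hx5.ne', Real.log_rpow hx4] at h2
    have h3 : B * Real.log (Real.log x) ≤ |B| * Real.log (Real.log x) :=
      mul_le_mul_of_nonneg_right (le_abs_self B) hx3.le
    have h4 : 0 ≤ |B| * η * Real.log (Real.log x) := by positivity
    have h5 : 0 < (1 + η) * Real.log (Real.log x) := by positivity
    nlinarith

end Pool.Agent.Results.MP_323ce2_nt.ShortSparseWindows
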