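import Pool.Agent.Q32.Tw.C

set_option autoImplicit false

/-!
# MP_323ce2_nt: the weak Mertens hypothesis for thinned Möbius sums

For a completely multiplicative function `g` with `0 ≤ g(p) ≤ 1` at the primes let
`I_g(x) = ∫_1^x (∑_{n ≤ u} μ(n) g(n) / u)² du`, so that the weak Mertens hypothesis is `I_1(x) ≪ log x`.

* If `∑ (1 - g(p)) / √p` converges, then `I_g` and `I_1` have the same order of magnitude.  So the weak Mertens
  hypothesis is equivalent to the same bound for `I_g`; for instance one may sum over the integers coprime to `k`.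
* Call `g` sparse if `∑ g(p) / p ^ σ` converges for some `σ < 1`.  For every `g` which is not sparse, a single bound
  `I_g(x) ≪ x ^ δ`, `δ < 1`, implies that `ζ` has no zero with real part greater than `(1 + δ) / 2` and that
  `∑ (1 - g(p)) / p ^ σ` converges for all `σ > (1 + δ) / 2`.  In particular `I_g(x) ≪ log x` implies the Riemann
  hypothesis.
-/

namespace Pool.Agent.Results.MP_323ce2_nt.ThinnedSums

open Filter Topology MeasureTheory H353 Pool.Agent.Q32.Tw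

/-- `∫_1^x (∑_{n ≤ u} μ(n) g(n) / u)² du` -/
noncomputable def I (g : ℕ → ℝ) (x : ℝ) : ℝ :=
  ∫ u in (1 : ℝ)..x, ((∑ n ∈ Finset.Icc 1 ⌊u⌋₊, (ArithmeticFunction.moebius n : ℝ) * g n) / u) ^ 2

/-- `∑ g(p) / p ^ σ` converges for some `σ < 1`. -/
def Sparse (g : ℕ → ℝ) : Prop :=
  ∃ σ : ℝ, σ < 1 ∧ Summable (fun p : Nat.Primes => g p / ((p : ℕ) : ℝ) ^ σ)

/-- No zeros to the right of `θ`. -/
def ZeroFree (θ : ℝ) : Prop := ∀ s : ℂ, θ < s.re → riemannZeta s ≠ 0

/-- Every zero of `ζ` in the critical strip has real part `1/2`. -/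
def RH : Prop := ∀ ρ : ℂ, riemannZeta ρ = 0 → 0 < ρ.re → ρ.re < 1 → ρ.re = 1 / 2

/-- Every zero of `ζ` in the critical strip has real part `1/2` and is simple. -/
def RHSimple : Prop :=
  ∀ ρ : ℂ, riemannZeta ρ = 0 → 0 < ρ.re → ρ.re < 1 → ρ.re = 1 / 2 ∧ deriv riemannZeta ρ ≠ 0

theorem I_eq (g : ℕ →*₀ ℝ) (x : ℝ) : I g x = II (fA g) x := rfl

theorem I_one (x : ℝ) : I (fun _ => 1) x = II mA x := by
  unfold I II SS
  simp only [mul_one, mA_apply]

theorem rh_of (h : ZeroFree (1 / 2)) : RH := by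
  intro ρ hz h0 h1
  have h2 : ρ.re ≤ 1 / 2 := by
    by_contra hc
    exact h ρ (not_le.1 hc) hz
  have h3 : (1 - ρ).re ≤ 1 / 2 := by
    by_contra hc
    exact h (1 - ρ) (not_le.1 hc) (H313.TK.refl_zero ρ hz h0 h1)
  simp only [Complex.sub_re, Complex.one_re] at h3
  linarith

/-- the dichotomy with an exponent -/
theorem expo (g : ℕ →*₀ ℝ) (hg : ∀ p : ℕ, p.Prime → 0 ≤ g p ∧ g p ≤ 1) (hs : ¬ Sparse g) (δ C : ℝ)
    (h0 : 0 ≤ δ) (h1 : δ < 1) (h : ∀ x : ℝ, 1 ≤ x → I g x ≤ C * x ^ δ) :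
    ZeroFree ((1 + δ) / 2) ∧
      ∀ σ : ℝ, (1 + δ) / 2 < σ → Summable (fun p : Nat.Primes => (1 - g p) / ((p : ℕ) : ℝ) ^ σ) := by
  rcases need2 hg δ C h0 h1 h with h2 | h2
  · exact absurd h2 hs
  · refine ⟨fun s hs => (h2 (((1 + δ) / 2 + s.re) / 2) (by linarith)).2 s (by linarith), fun σ hσ => (h2 σ hσ).1⟩

/-- a logarithmic bound implies all power bounds -/
theorem pow_of_log (g : ℕ →*₀ ℝ) {C : ℝ} (h : ∀ x : ℝ, 2 ≤ x → I g x ≤ C * Real.log x) {δ : ℝ} (hδ : 0 < δ) :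
    ∃ C' : ℝ, ∀ x : ℝ, 1 ≤ x → I g x ≤ C' * x ^ δ := by
  have hC : 0 ≤ C := by
    have h1 := h 2 le_rfl
    have h2 : 0 ≤ I g 2 := II_nonneg (fA g) (by norm_num)
    have h3 : 0 < Real.log 2 := Real.log_pos (by norm_num)
    by_contra hc
    push Not at hc
    nlinarith
  refine ⟨C / δ * 2 ^ δ, fun x hx => ?_⟩
  have h1 : I g x ≤ I g (2 * x) := II_mono (fA g) hx (by linarith)
  have h2 := h (2 * x) (by linarith)
  have h3 : Real.log (2 * x) ≤ (2 * x) ^ δ / δ := Real.log_le_rpow_div (by linarith) hδ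
  calc I g x ≤ C * Real.log (2 * x) := h1.trans h2
    _ ≤ C * ((2 * x) ^ δ / δ) := mul_le_mul_of_nonneg_left h3 hC
    _ = C / δ * 2 ^ δ * x ^ δ := by
      rw [Real.mul_rpow (by norm_num) (by linarith)]
      ring

theorem not_sparse_of (g : ℕ →*₀ ℝ) (hg : ∀ p : ℕ, p.Prime → 0 ≤ g p ∧ g p ≤ 1)
    (hs : Summable (fun p : Nat.Primes => (1 - g p) / ((p : ℕ) : ℝ) ^ (1 / 2 : ℝ))) : ¬ Sparse g := by
  rintro ⟨σ, hσ, h⟩
  set τ : ℝ := max σ (1 / 2) with hτ
  have hτ1 : τ < 1 := max_lt hσ (by norm_num)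
  have h1 := summ_mono (fun p => g p) (fun p => (hg p p.2).1) (le_max_left σ (1 / 2)) h
  have h2 := summ_mono (fun p => 1 - g p) (fun p => sub_nonneg.2 (hg p p.2).2) (le_max_right σ (1 / 2)) hs
  have h3 : Summable (fun p : Nat.Primes => (p : ℝ) ^ (-1 : ℝ)) := by
    refine (h1.add h2).of_nonneg_of_le (fun p => by positivity) fun p => ?_
    have h4 : (1 : ℝ) ≤ ((p : ℕ) : ℝ) := by exact_mod_cast p.2.one_lt.le
    have h5 : (0:ℝ) < ((p : ℕ) : ℝ) := by linarith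
    rw [← add_div, add_sub_cancel, one_div, ← Real.rpow_neg h5.le]
    exact Real.rpow_le_rpow_of_exponent_le h4 (by linarith)
  rw [Nat.Primes.summable_rpow] at h3
  norm_num at h3

/-- the weak Mertens bound implies the Riemann hypothesis and simplicity -/
theorem simple_of {C : ℝ} (h : ∀ x : ℝ, 2 ≤ x → I (fun _ => 1) x ≤ C * Real.log x) : RHSimple := by
  have hC : 0 ≤ C := by
    have h1 := h 2 le_rfl
    have h2 : 0 ≤ I (fun _ => 1) 2 := by
      rw [I_one]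
      exact II_nonneg mA (by norm_num)
    have h3 : 0 < Real.log 2 := Real.log_pos (by norm_num)
    by_contra hc
    push Not at hc
    nlinarith
  intro ρ hz h0 h1
  refine H313.TK.weak_one 1 (Or.inl rfl) (fun ε hε => ?_) ρ hz h0 h1
  refine Eventually.frequently ?_
  filter_upwards [eventually_ge_atTop (Real.exp 1), Real.tendsto_log_atTop.eventually_ge_atTop (2 * C / ε)] with x hx hx2
  have hx0 : 0 < x := (Real.exp_pos 1).trans_le hx
  have hl1 : 1 ≤ Real.log x := by rwa [Real.le_log_iff_exp_le hx0]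
  have hx22 : 2 ≤ x := by
    have := Real.add_one_le_exp (1:ℝ)
    linarith
  have hxl : x ≤ x * Real.log x := le_mul_of_one_le_right hx0.le hl1
  have e1 : ∫ y in x..(x * Real.log x), (max (1 * H313.TK.MM y) 0 / y) ^ 2 ≤
      ∫ y in x..(x * Real.log x), (SS mA y / y) ^ 2 := by
    refine intervalIntegral.integral_mono_on hxl ?_ (ii1 mA hx0 hxl) fun y hy => ?_
    · rw [intervalIntegrable_iff_integrableOn_Ioc_of_le hxl]
      have h5 := (intervalIntegrable_iff_integrableOn_Ioc_of_le hxl).1 (ii1 mA hx0 hxl)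
      refine h5.mono' ?_ (ae_of_all _ fun y => ?_)
      · have := H313.TK.MM_meas
        exact (by fun_prop : Measurable fun y => (max (1 * H313.TK.MM y) 0 / y) ^ 2).aestronglyMeasurable
      · rw [Real.norm_eq_abs, abs_pow, div_pow, abs_div, div_pow, sq_abs, sq_abs]
        refine div_le_div_of_nonneg_right ?_ (sq_nonneg _)
        have e : SS mA y = H313.TK.MM y := rfl
        rw [e, one_mul]
        rcases le_total (H313.TK.MM y) 0 with h6 | h6
        · rw [max_eq_right h6]; nlinarith [sq_nonneg (H313.TK.MM y)]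
        · rw [max_eq_left h6]
    · rw [div_pow, div_pow]
      refine div_le_div_of_nonneg_right ?_ (sq_nonneg _)
      have e : SS mA y = H313.TK.MM y := rfl
      rw [e, one_mul]
      rcases le_total (H313.TK.MM y) 0 with h6 | h6
      · rw [max_eq_right h6]; nlinarith [sq_nonneg (H313.TK.MM y)]
      · rw [max_eq_left h6]
  have e2 : ∫ y in x..(x * Real.log x), (SS mA y / y) ^ 2 ≤ II mA (x * Real.log x) := by
    unfold II
    rw [← intervalIntegral.integral_add_adjacent_intervals (ii1 mA one_pos (by linarith : 1 ≤ x))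
      (ii1 mA hx0 hxl)]
    have : 0 ≤ ∫ u in (1:ℝ)..x, (SS mA u / u) ^ 2 :=
      intervalIntegral.integral_nonneg (by linarith) fun _ _ => sq_nonneg _
    linarith
  have e3 := h (x * Real.log x) (by linarith)
  rw [I_one] at e3
  have e4 : Real.log (x * Real.log x) ≤ 2 * Real.log x := by
    rw [Real.log_mul hx0.ne' (by linarith)]
    have := Real.log_le_sub_one_of_pos (show 0 < Real.log x by linarith)
    linarith
  have e5 : C * (2 * Real.log x) ≤ ε * Real.log x ^ 2 := by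
    rw [div_le_iff₀ hε] at hx2
    nlinarith
  calc _ ≤ C * Real.log (x * Real.log x) := e1.trans (e2.trans e3)
    _ ≤ C * (2 * Real.log x) := mul_le_mul_of_nonneg_left e4 hC
    _ ≤ _ := e5

/-- the indicator function of the integers coprime to `k` -/
noncomputable def cop (k : ℕ) : ℕ →*₀ ℝ where
  toFun n := if n = 0 then 0 else if n.Coprime k then 1 else 0
  map_zero' := by simp
  map_one' := by simp
  map_mul' m n := by
    by_cases hm : m = 0
    · simp [hm]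
    by_cases hn : n = 0
    · simp [hn]
    have hmn : m * n ≠ 0 := mul_ne_zero hm hn
    rw [if_neg hm, if_neg hn, if_neg hmn]
    by_cases h1 : m.Coprime k
    · by_cases h2 : n.Coprime k
      · rw [if_pos h1, if_pos h2, if_pos (Nat.Coprime.mul_left h1 h2), one_mul]
      · rw [if_neg h2, if_neg (fun h => h2 (Nat.Coprime.coprime_mul_left h)), mul_zero]
    · rw [if_neg h1, if_neg (fun h => h1 (Nat.Coprime.coprime_mul_right h)), zero_mul]

theorem cop_apply (k : ℕ) {n : ℕ} (hn : n ≠ 0) : cop k n = if n.Coprime k then 1 else 0 := by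
  show (if n = 0 then (0:ℝ) else if n.Coprime k then 1 else 0) = _
  rw [if_neg hn]

theorem two_sided {A B : ℝ → ℝ} {C : ℝ} (hC : 0 < C) (h : ∀ x : ℝ, 1 ≤ x → A x ≤ C * B x ∧ B x ≤ C * A x) :
    (∃ K : ℝ, ∀ x : ℝ, 2 ≤ x → A x ≤ K * Real.log x) ↔ (∃ K : ℝ, ∀ x : ℝ, 2 ≤ x → B x ≤ K * Real.log x) := by
  constructor
  · rintro ⟨K, hK⟩
    refine ⟨C * K, fun x hx => (h x (by linarith)).2.trans ?_⟩
    rw [mul_assoc]
    exact mul_le_mul_of_nonneg_left (hK x hx) hC.le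
  · rintro ⟨K, hK⟩
    refine ⟨C * K, fun x hx => (h x (by linarith)).1.trans ?_⟩
    rw [mul_assoc]
    exact mul_le_mul_of_nonneg_left (hK x hx) hC.le

theorem cmp (g : ℕ →*₀ ℝ) (hg : ∀ p : ℕ, p.Prime → 0 ≤ g p ∧ g p ≤ 1)
    (hs : Summable (fun p : Nat.Primes => (1 - g p) / ((p : ℕ) : ℝ) ^ (1 / 2 : ℝ))) :
    ∃ C : ℝ, 0 < C ∧ ∀ x : ℝ, 1 ≤ x → I g x ≤ C * I (fun _ => 1) x ∧ I (fun _ => 1) x ≤ C * I g x := by
  obtain ⟨C, hC, h⟩ := compare hg hs
  exact ⟨C, hC, fun x hx => by rw [I_eq, I_one]; exact h x hx⟩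

theorem result :
    (∀ g : ℕ →*₀ ℝ, (∀ p : ℕ, p.Prime → 0 ≤ g p ∧ g p ≤ 1) →
      Summable (fun p : Nat.Primes => (1 - g p) / √((p : ℕ) : ℝ)) →
      (∃ C : ℝ, 0 < C ∧ ∀ x : ℝ, 1 ≤ x → I g x ≤ C * I (fun _ => 1) x ∧ I (fun _ => 1) x ≤ C * I g x) ∧
      ((∃ C : ℝ, ∀ x : ℝ, 2 ≤ x → I g x ≤ C * Real.log x) ↔
        ∃ C : ℝ, ∀ x : ℝ, 2 ≤ x → I (fun _ => 1) x ≤ C * Real.log x) ∧
      ((∃ C : ℝ, ∀ x : ℝ, 2 ≤ x → I g x ≤ C * Real.log x) → RHSimple)) ∧
    (∀ k : ℕ, 1 ≤ k →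
      ∃ C : ℝ, 0 < C ∧ ∀ x : ℝ, 1 ≤ x →
        I (fun n => if n.Coprime k then 1 else 0) x ≤ C * I (fun _ => 1) x ∧
        I (fun _ => 1) x ≤ C * I (fun n => if n.Coprime k then 1 else 0) x) ∧
    (∀ g : ℕ →*₀ ℝ, (∀ p : ℕ, p.Prime → 0 ≤ g p ∧ g p ≤ 1) → ¬ Sparse g →
      (∀ δ : ℝ, 0 ≤ δ → δ < 1 → (∃ C : ℝ, ∀ x : ℝ, 1 ≤ x → I g x ≤ C * x ^ δ) →
        ZeroFree ((1 + δ) / 2) ∧
        ∀ σ : ℝ, (1 + δ) / 2 < σ → Summable (fun p : Nat.Primes => (1 - g p) / ((p : ℕ) : ℝ) ^ σ)) ∧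
      ((∃ C : ℝ, ∀ x : ℝ, 2 ≤ x → I g x ≤ C * Real.log x) → RH ∧
        ∀ σ : ℝ, 1 / 2 < σ → Summable (fun p : Nat.Primes => (1 - g p) / ((p : ℕ) : ℝ) ^ σ))) := by
  refine ⟨fun g hg hs => ?_, fun k hk => ?_, fun g hg hs => ⟨?_, ?_⟩⟩
  · have hs' : Summable (fun p : Nat.Primes => (1 - g p) / ((p : ℕ) : ℝ) ^ (1 / 2 : ℝ)) := by
      simp_rw [← Real.sqrt_eq_rpow]
      exact hs
    obtain ⟨C, hC, h⟩ := cmp g hg hs'
    have h2 := two_sided hC h
    refine ⟨⟨C, hC, h⟩, h2, fun h3 => ?_⟩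
    obtain ⟨K, hK⟩ := h2.1 h3
    exact simple_of hK
  · have hk0 : k ≠ 0 := by omega
    have hg : ∀ p : ℕ, p.Prime → 0 ≤ cop k p ∧ cop k p ≤ 1 := by
      intro p hp
      rw [cop_apply k hp.ne_zero]
      split_ifs <;> norm_num
    have hs : Summable (fun p : Nat.Primes => (1 - cop k p) / ((p : ℕ) : ℝ) ^ (1 / 2 : ℝ)) := by
      have hfin : {p : Nat.Primes | (p : ℕ) ∣ k}.Finite := by
        have h1 : ((fun p : Nat.Primes => (p : ℕ)) ⁻¹' (k.divisors : Set ℕ)).Finite :=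
          (k.divisors.finite_toSet).preimage (Nat.Primes.coe_nat_injective.injOn)
        refine h1.subset fun p hp => ?_
        simp only [Set.mem_preimage, Finset.mem_coe, Nat.mem_divisors]
        exact ⟨hp, hk0⟩
      refine summable_of_ne_finset_zero (s := hfin.toFinset) fun p hp => ?_
      rw [Set.Finite.mem_toFinset] at hp
      have hp' : ¬ (p : ℕ) ∣ k := hp
      rw [cop_apply k p.2.ne_zero, if_pos ((Nat.Prime.coprime_iff_not_dvd p.2).2 hp')]
      simp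
    obtain ⟨C, hC, h⟩ := cmp (cop k) hg hs
    have e : ∀ x : ℝ, I (cop k) x = I (fun n => if n.Coprime k then 1 else 0) x := by
      intro x
      unfold I
      refine intervalIntegral.integral_congr fun u _ => ?_
      simp only
      congr 2
      refine Finset.sum_congr rfl fun n hn => ?_
      rw [cop_apply k (by have := (Finset.mem_Icc.1 hn).1; omega)]
    refine ⟨C, hC, fun x hx => ?_⟩
    rw [← e x]
    exact h x hx
  · rintro δ h0 h1 ⟨C, h⟩
    exact expo g hg hs δ C h0 h1 h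
  · rintro ⟨C, h⟩
    have key : ∀ δ : ℝ, 0 < δ → δ < 1 → ZeroFree ((1 + δ) / 2) ∧
        ∀ σ : ℝ, (1 + δ) / 2 < σ → Summable (fun p : Nat.Primes => (1 - g p) / ((p : ℕ) : ℝ) ^ σ) := by
      intro δ hδ hδ1
      obtain ⟨C', h'⟩ := pow_of_log g h hδ
      exact expo g hg hs δ C' hδ.le hδ1 h'
    refine ⟨rh_of fun s hs => ?_, fun σ hσ => ?_⟩
    · by_cases h1 : s.re < 1
      · exact (key (s.re - 1 / 2) (by linarith) (by linarith)).1 s (by linarith)
      · exact riemannZeta_ne_zero_of_one_le_re (not_lt.1 h1)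
    · by_cases h1 : σ < 1
      · exact (key (σ - 1 / 2) (by linarith) (by linarith)).2 σ (by linarith)
      · exact (key (1 / 2) (by norm_num) (by norm_num)).2 σ (by norm_num; linarith)

end Pool.Agent.Results.MP_323ce2_nt.ThinnedSums
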